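import Pool.Agent.helper82.T6.SpecL

/-!
# Row `t6:NBC`: lattice points for small moduli
-/

set_option autoImplicit false

namespace Pool.Agent.T6

open Finset Pool.Agent.helper3.FT

/-- integers of one class modulo `m` in `[-R, R]` -/
theorem NBC_class (G : Finset ℤ) (m : ℕ) (R : ℝ) (hm : 1 ≤ m)
    (hb : ∀ x ∈ G, |(x : ℝ)| ≤ R) (hc : ∀ x ∈ G, ∀ y ∈ G, (m : ℤ) ∣ x - y) :
    G.card ≤ ⌊2 * R / m⌋₊ + 1 := by
  rcases G.eq_empty_or_nonempty with h0 | hne
  · rw [h0]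
    exact Nat.zero_le _
  have hm0 : (0 : ℝ) < m := by exact_mod_cast hm
  have hmz : (0 : ℤ) < m := by exact_mod_cast hm
  set x0 := G.min' hne with hx0
  have hx0G : x0 ∈ G := G.min'_mem hne
  have hle : ∀ x ∈ G, 0 ≤ x - x0 := fun x hx => sub_nonneg.2 (G.min'_le x hx)
  rw [← card_range (⌊2 * R / m⌋₊ + 1)]
  refine card_le_card_of_injOn (fun x => ((x - x0) / m).toNat) ?_ ?_
  · intro x hx
    rw [mem_coe] at hx
    rw [mem_coe, mem_range, Nat.lt_succ_iff]
    refine Nat.le_floor ?_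
    have h1 : 0 ≤ (x - x0) / (m : ℤ) := Int.ediv_nonneg (hle x hx) hmz.le
    have h2 : (((x - x0) / (m : ℤ)).toNat : ℤ) = (x - x0) / m := Int.toNat_of_nonneg h1
    have h3 : (((x - x0) / (m : ℤ)).toNat : ℝ) = (((x - x0) / (m : ℤ) : ℤ) : ℝ) := by
      rw [← h2]
      norm_cast
    rw [h3, le_div_iff₀ hm0]
    have h4 : (x - x0) / (m : ℤ) * m = x - x0 := Int.ediv_mul_cancel (hc x hx x0 hx0G)
    have h5 : (((x - x0) / (m : ℤ) : ℤ) : ℝ) * (m : ℝ) = (x : ℝ) - x0 := by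
      have := congrArg (fun z : ℤ => (z : ℝ)) h4
      push_cast at this
      exact this
    rw [h5]
    have h6 := (abs_le.1 (hb x hx)).2
    have h7 := (abs_le.1 (hb x0 hx0G)).1
    linarith
  · intro x hx y hy he
    rw [mem_coe] at hx hy
    have h1 : 0 ≤ (x - x0) / (m : ℤ) := Int.ediv_nonneg (hle x hx) hmz.le
    have h2 : 0 ≤ (y - x0) / (m : ℤ) := Int.ediv_nonneg (hle y hy) hmz.le
    have h3 : (x - x0) / (m : ℤ) = (y - x0) / (m : ℤ) := by
      rw [← Int.toNat_of_nonneg h1, ← Int.toNat_of_nonneg h2]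
      exact congrArg _ he
    have h4 : (x - x0) / (m : ℤ) * m = x - x0 := Int.ediv_mul_cancel (hc x hx x0 hx0G)
    have h5 : (y - x0) / (m : ℤ) * m = y - x0 := Int.ediv_mul_cancel (hc y hy x0 hx0G)
    rw [h3, h5] at h4
    linarith

theorem NBC_fib {α β : Type} [DecidableEq β] (F : Finset α) (f : α → β) (g : α → ℤ) (m : ℕ) (R : ℝ)
    (hm : 1 ≤ m) (hR : (m : ℝ) ≤ R) (hb : ∀ x ∈ F, |(g x : ℝ)| ≤ R)
    (hinj : ∀ x ∈ F, ∀ y ∈ F, f x = f y → g x = g y → x = y)
    (hc : ∀ x ∈ F, ∀ y ∈ F, f x = f y → (m : ℤ) ∣ g x - g y) :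
    (F.card : ℝ) ≤ 3 * R / m * (F.image f).card := by
  classical
  have hm0 : (0 : ℝ) < m := by exact_mod_cast hm
  have h1 : F.card ≤ (⌊2 * R / m⌋₊ + 1) * (F.image f).card := by
    refine card_le_mul_card_image F _ fun b hbb => ?_
    have h2 : (F.filter (fun x => f x = b)).card = ((F.filter (fun x => f x = b)).image g).card := by
      refine (card_image_of_injOn ?_).symm
      intro x hx y hy he
      rw [mem_coe, mem_filter] at hx hy
      exact hinj x hx.1 y hy.1 (hx.2.trans hy.2.symm) he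
    rw [h2]
    refine NBC_class _ m R hm ?_ ?_
    · intro z hz
      obtain ⟨x, hx, rfl⟩ := mem_image.1 hz
      exact hb x (mem_filter.1 hx).1
    · intro z hz w hw
      obtain ⟨x, hx, rfl⟩ := mem_image.1 hz
      obtain ⟨y, hy, rfl⟩ := mem_image.1 hw
      exact hc x (mem_filter.1 hx).1 y (mem_filter.1 hy).1 ((mem_filter.1 hx).2.trans (mem_filter.1 hy).2.symm)
  have h3 : ((⌊2 * R / m⌋₊ + 1 : ℕ) : ℝ) ≤ 3 * R / m := by
    have hR0 : 0 ≤ R := le_trans hm0.le hR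
    have h4 : (⌊2 * R / m⌋₊ : ℝ) ≤ 2 * R / m := Nat.floor_le (by positivity)
    have h5 : 1 ≤ R / m := (one_le_div hm0).2 hR
    push_cast
    calc (⌊2 * R / m⌋₊ : ℝ) + 1 ≤ 2 * R / m + R / m := add_le_add h4 h5
      _ = 3 * R / m := by ring
  calc (F.card : ℝ) ≤ (((⌊2 * R / m⌋₊ + 1) * (F.image f).card : ℕ) : ℝ) := by exact_mod_cast h1
    _ = ((⌊2 * R / m⌋₊ + 1 : ℕ) : ℝ) * (F.image f).card := by push_cast; ring
    _ ≤ 3 * R / m * (F.image f).card := mul_le_mul_of_nonneg_right h3 (Nat.cast_nonneg _)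

theorem NBC : NBC_stmt := by
  classical
  intro b V m r F hb hm h5 hV hF
  have hb0 : 0 < b := by linarith
  have hm0 : (0 : ℝ) < m := by exact_mod_cast hm
  have hm1 : (1 : ℝ) ≤ m := by exact_mod_cast hm
  have hb5 : 1 ≤ b ^ 5 := one_le_pow₀ hb
  have hbb5 : b ≤ b ^ 5 := by
    calc b = b ^ 1 := (pow_one b).symm
      _ ≤ b ^ 5 := pow_le_pow_right₀ hb (by norm_num)
  have hV1 : 1 ≤ V := le_trans (by nlinarith) hV
  have hV0 : 0 < V := by linarith
  have hcoord : ∀ v ∈ F, |(v.1 : ℝ)| ≤ V * b ^ 5 ∧ |(v.2.1 : ℝ)| ≤ V * b ∧ |(v.2.2.1 : ℝ)| ≤ V / b ∧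
      |(v.2.2.2 : ℝ)| ≤ V / b ^ 5 := by
    intro v hv
    have h := (hF v hv).2
    unfold nrm at h
    obtain ⟨h1, h2⟩ := max_le_iff.1 h
    obtain ⟨h11, h12⟩ := max_le_iff.1 h1
    obtain ⟨h21, h22⟩ := max_le_iff.1 h2
    exact ⟨(div_le_iff₀ (by positivity)).1 h11, (div_le_iff₀ hb0).1 h12, (le_div_iff₀ hb0).2 h21,
      (le_div_iff₀ (by positivity)).2 h22⟩
  have hI5 : IsCoprime (m : ℤ) 5 := by exact_mod_cast Nat.isCoprime_iff_coprime.2 h5
  have s1 : (F.card : ℝ) ≤ 3 * (V / b ^ 5) / m * (F.image (fun v : V4 => (v.1, v.2.1, v.2.2.1))).card := by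
    refine NBC_fib F _ (fun v => v.2.2.2) m _ hm ?_ (fun v hv => (hcoord v hv).2.2.2) ?_ ?_
    · rw [le_div_iff₀ (by positivity)]
      exact hV
    · intro x _ y _ he hg
      simp only [Prod.mk.injEq] at he
      exact Prod.ext he.1 (Prod.ext he.2.1 (Prod.ext he.2.2 hg))
    · intro x hx y hy he
      simp only [Prod.mk.injEq] at he
      have h1 := (hF x hx).1.2
      have h2 := (hF y hy).1.2
      rw [he.2.1, he.2.2] at h1
      have h3 := dvd_sub h2 h1
      have e : F2 y.2.1 y.2.2.1 y.2.2.2 r 1 - F2 y.2.1 y.2.2.1 x.2.2.2 r 1 = 5 * (x.2.2.2 - y.2.2.2) := by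
        unfold F2
        ring
      rw [e] at h3
      exact hI5.dvd_of_dvd_mul_left h3
  have s2 : ((F.image (fun v : V4 => (v.1, v.2.1, v.2.2.1))).card : ℝ) ≤
      3 * (V / b) / m * (F.image (fun v : V4 => (v.1, v.2.1))).card := by
    have hi : (F.image (fun v : V4 => (v.1, v.2.1, v.2.2.1))).image (fun w : ℤ × ℤ × ℤ => (w.1, w.2.1)) =
        F.image (fun v : V4 => (v.1, v.2.1)) := by
      rw [image_image]
      rfl
    rw [← hi]
    refine NBC_fib _ _ (fun w => w.2.2) m _ hm ?_ ?_ ?_ ?_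
    · rw [le_div_iff₀ hb0]
      exact le_trans (mul_le_mul_of_nonneg_left hbb5 hm0.le) hV
    · intro w hw
      obtain ⟨v, hv, rfl⟩ := mem_image.1 hw
      exact (hcoord v hv).2.2.1
    · intro x _ y _ he hg
      simp only [Prod.mk.injEq] at he
      exact Prod.ext he.1 (Prod.ext he.2 hg)
    · intro x hx y hy he
      obtain ⟨v, hv, rfl⟩ := mem_image.1 hx
      obtain ⟨w, hw, rfl⟩ := mem_image.1 hy
      simp only [Prod.mk.injEq] at he
      have h1 := (hF v hv).1.1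
      have h2 := (hF w hw).1.1
      rw [he.1, he.2] at h1
      have h3 := dvd_sub h1 h2
      have e : F1 w.1 w.2.1 v.2.2.1 r 1 - F1 w.1 w.2.1 w.2.2.1 r 1 = v.2.2.1 - w.2.2.1 := by
        unfold F1
        ring
      rwa [e] at h3
  have s3 : ((F.image (fun v : V4 => (v.1, v.2.1))).card : ℝ) ≤
      3 * (V * b) / (1 : ℕ) * (F.image (fun v : V4 => v.1)).card := by
    have hi : (F.image (fun v : V4 => (v.1, v.2.1))).image (fun w : ℤ × ℤ => w.1) =
        F.image (fun v : V4 => v.1) := by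
      rw [image_image]
      rfl
    rw [← hi]
    refine NBC_fib _ _ (fun w => w.2) 1 _ le_rfl ?_ ?_ ?_ ?_
    · push_cast
      nlinarith
    · intro w hw
      obtain ⟨v, hv, rfl⟩ := mem_image.1 hw
      exact (hcoord v hv).2.1
    · intro x _ y _ he hg
      exact Prod.ext he hg
    · intro x _ y _ _
      exact one_dvd _
  have s4 : ((F.image (fun v : V4 => v.1)).card : ℝ) ≤ 3 * (V * b ^ 5) / (1 : ℕ) * 1 := by
    have h0 : ((((F.image (fun v : V4 => v.1)).image (fun _ : ℤ => ())).card : ℕ) : ℝ) ≤ 1 := by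
      have : ((F.image (fun v : V4 => v.1)).image (fun _ : ℤ => ())).card ≤ 1 := card_le_one_of_subsingleton _
      exact_mod_cast this
    refine le_trans (NBC_fib _ (fun _ : ℤ => ()) (fun w => w) 1 (V * b ^ 5) le_rfl ?_ ?_ ?_ ?_)
      (mul_le_mul_of_nonneg_left h0 (by positivity))
    · push_cast
      nlinarith
    · intro w hw
      obtain ⟨v, hv, rfl⟩ := mem_image.1 hw
      exact (hcoord v hv).1
    · intro x _ y _ _ hg
      exact hg
    · intro x _ y _ _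
      exact one_dvd _
  calc (F.card : ℝ) ≤ 3 * (V / b ^ 5) / m * (F.image (fun v : V4 => (v.1, v.2.1, v.2.2.1))).card := s1
    _ ≤ 3 * (V / b ^ 5) / m * (3 * (V / b) / m * (F.image (fun v : V4 => (v.1, v.2.1))).card) :=
        mul_le_mul_of_nonneg_left s2 (by positivity)
    _ ≤ 3 * (V / b ^ 5) / m * (3 * (V / b) / m * (3 * (V * b) / (1 : ℕ) * (F.image (fun v : V4 => v.1)).card)) :=
        mul_le_mul_of_nonneg_left (mul_le_mul_of_nonneg_left s3 (by positivity)) (by positivity)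
    _ ≤ 3 * (V / b ^ 5) / m * (3 * (V / b) / m * (3 * (V * b) / (1 : ℕ) * (3 * (V * b ^ 5) / (1 : ℕ) * 1))) :=
        mul_le_mul_of_nonneg_left (mul_le_mul_of_nonneg_left (mul_le_mul_of_nonneg_left s4 (by positivity))
          (by positivity)) (by positivity)
    _ = 81 * V ^ 4 / (m : ℝ) ^ 2 := by
        push_cast
        field_simp
        ring

end Pool.Agent.T6
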