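import Pool.Agent.helper82.T6.SpecL
import Pool.Agent.helper8.FT.P3
import Pool.Agent.helper63.FT.P2

/-!
# Row `t6:NRT`: number of roots `r` modulo `d`
-/

set_option autoImplicit false

namespace Pool.Agent.T6

open Finset Pool.Agent.helper3.FT

theorem NRT_iff (p r : ℕ) (v : V4) : InG p r v ↔
    (5 * (v.1 : ZMod p) * (r : ZMod p) ^ 3 - 2 * (v.2.1 : ZMod p) * (r : ZMod p) + (v.2.2.1 : ZMod p) = 0 ∧
      (v.2.1 : ZMod p) * (r : ZMod p) ^ 3 + 2 * (v.2.2.1 : ZMod p) * (r : ZMod p) ^ 2 - 5 * (v.2.2.2 : ZMod p) = 0) := by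
  unfold InG
  rw [← ZMod.intCast_zmod_eq_zero_iff_dvd, ← ZMod.intCast_zmod_eq_zero_iff_dvd]
  unfold F1 F2
  push_cast
  constructor
  · rintro ⟨h1, h2⟩
    exact ⟨by linear_combination h1, by linear_combination h2⟩
  · rintro ⟨h1, h2⟩
    exact ⟨by linear_combination h1, by linear_combination h2⟩

open Classical in
theorem NRT_prime (p : ℕ) (hp : p.Prime) (hp5 : 5 < p) (v : V4)
    (hv : ¬ ((p : ℤ) ∣ v.1 ∧ (p : ℤ) ∣ v.2.1 ∧ (p : ℤ) ∣ v.2.2.1 ∧ (p : ℤ) ∣ v.2.2.2)) :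
    ((range p).filter (fun r => InG p r v)).card ≤ 3 := by
  have := Fact.mk hp
  have h := roots_le p (by omega) v.1 v.2.1 v.2.2.1 v.2.2.2 hv
  refine le_trans (card_le_card_of_injOn (fun r : ℕ => (r : ZMod p)) ?_ ?_) h
  · intro r hr
    rw [mem_coe, mem_filter] at hr
    rw [mem_coe, mem_filter]
    exact ⟨mem_univ _, (NRT_iff p r v).1 hr.2⟩
  · intro r hr r' hr' he
    rw [mem_coe, mem_filter, mem_range] at hr hr'
    have h2 := (ZMod.natCast_eq_natCast_iff' r r' p).1 he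
    rwa [Nat.mod_eq_of_lt hr.1, Nat.mod_eq_of_lt hr'.1] at h2

theorem NRT : NRT_stmt := by
  classical
  intro d v hd hR hP
  have h5 : Nat.Coprime d 5 := by
    refine Nat.Coprime.symm ((Nat.Prime.coprime_iff_not_dvd Nat.prime_five).2 fun h => ?_)
    exact absurd (hR 5 Nat.prime_five h) (lt_irrefl 5)
  have hT : ∀ p ∈ d.primeFactors, ((range p).filter (fun r => InG p r v)).card ≤ 3 := by
    intro p hp
    have hp1 := Nat.prime_of_mem_primeFactors hp
    have hp2 := Nat.dvd_of_mem_primeFactors hp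
    exact NRT_prime p hp1 (hR p hp1 hp2) v (hP p hp1 hp2)
  calc ((range d).filter (fun r => Nat.Coprime r d ∧ InG d r v)).card
      ≤ (Finset.pi d.primeFactors (fun p => (range p).filter (fun r => InG p r v))).card := ?_
    _ = ∏ p ∈ d.primeFactors, ((range p).filter (fun r => InG p r v)).card := card_pi _ _
    _ ≤ 3 ^ d.primeFactors.card := prod_le_pow_card _ _ 3 hT
  refine card_le_card_of_injOn (fun r : ℕ => fun p _ => r % p) ?_ ?_
  · intro r hr
    rw [mem_coe, mem_filter, mem_range] at hr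
    rw [mem_coe, mem_pi]
    intro p hp
    have hp1 := Nat.prime_of_mem_primeFactors hp
    have hp2 := Nat.dvd_of_mem_primeFactors hp
    rw [mem_filter, mem_range]
    refine ⟨Nat.mod_lt _ hp1.pos, ?_⟩
    rw [NRT_iff]
    have e : ((r % p : ℕ) : ZMod p) = (r : ZMod p) := ZMod.natCast_mod r p
    rw [e, ← NRT_iff]
    exact ⟨dvd_trans (Int.natCast_dvd_natCast.2 hp2) hr.2.2.1, dvd_trans (Int.natCast_dvd_natCast.2 hp2) hr.2.2.2⟩
  · intro r hr r' hr' he
    rw [mem_coe, mem_filter, mem_range] at hr hr'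
    have hc : ∀ s : ℕ, Nat.Coprime s d → IsCoprime (d : ℤ) (5 * ((s : ℤ) * 1)) := by
      intro s hs
      have h1 : Nat.Coprime d (5 * s) := Nat.Coprime.mul_right h5 hs.symm
      have h2 : IsCoprime ((d : ℕ) : ℤ) ((5 * s : ℕ) : ℤ) := Nat.isCoprime_iff_coprime.2 h1
      push_cast at h2
      rwa [mul_one]
    have h1 := separation (d : ℤ) v.1 v.2.1 v.2.2.1 v.2.2.2 r 1 r' 1 (hc r hr.2.1) (hc r' hr'.2.1)
      hr.2.2.1 hr.2.2.2 hr'.2.2.1 hr'.2.2.2 ?_ ?_
    · rw [mul_one, mul_one] at h1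
      have h2 : (r : ℤ) ≡ (r' : ℤ) [ZMOD d] := (Int.modEq_iff_dvd.2 h1).symm
      have h3 : r ≡ r' [MOD d] := Int.natCast_modEq_iff.1 h2
      exact Nat.ModEq.eq_of_lt_of_lt h3 hr.1 hr'.1
    · intro p hp hpd
      have hp2 : p ∣ d := Int.natCast_dvd_natCast.1 hpd
      have hm : p ∈ d.primeFactors := Nat.mem_primeFactors.2 ⟨hp, hp2, by omega⟩
      have h2 := congrFun (congrFun he p) hm
      have h3 : r' ≡ r [MOD p] := h2.symm
      rw [mul_one, mul_one]
      exact Int.modEq_iff_dvd.1 (Int.natCast_modEq_iff.2 h3)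
    · intro p hp hpd
      exact hP p hp (Int.natCast_dvd_natCast.1 hpd)

end Pool.Agent.T6
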