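import Pool.Agent.helper8.T6.SpecC2

/-!
# Row `t6:TCH`: choice of the local classes
-/

set_option autoImplicit false

namespace Pool.Agent.T6

open Finset Pool.Agent.T5

theorem TCH : TCH_stmt := by
  classical
  intro hA hB
  have hA' : ∀ (p : ℕ) (q : ℕ × ℕ), ∃ L L' : Finset Cls, L.card ≤ 3 * p ^ 2 ∧ L'.card ≤ 12 * p ∧
      (p.Prime → p ≠ 2 → ∀ t : Tpl, IsT t → t.1 = q → ¬ p ∣ t.1.1 * t.1.2 → (p : ℤ) ^ 2 ∣ dis t →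
        (∃ x ∈ L, InC p 1 x t) ∨ (∃ x ∈ L', InC 1 p x t)) := by
    intro p q
    by_cases h : p.Prime ∧ p ≠ 2 ∧ 1 ≤ q.1 ∧ 1 ≤ q.2 ∧ Nat.Coprime q.1 q.2 ∧ ¬ p ∣ q.1 * q.2
    · obtain ⟨L, L', h1, h2, h3⟩ := hA p q.1 q.2 h.1 h.2.1 h.2.2.1 h.2.2.2.1 h.2.2.2.2.1 h.2.2.2.2.2
      exact ⟨L, L', h1, h2, fun _ _ t ht hq _ hd => h3 t ht hq hd⟩
    · refine ⟨∅, ∅, Nat.zero_le _, Nat.zero_le _, fun hp hp2 t ht hq hnd _ => absurd ?_ h⟩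
      rw [← hq]
      exact ⟨hp, hp2, ht.n1, ht.k1, ht.co, hnd⟩
  have hB' : ∀ (p a : ℕ) (q : ℕ × ℕ), ∃ L : Finset Cls, L.card ≤ 2 * (a + 1) * p ^ (2 * a + a / 2) ∧
      (p.Prime → 1 ≤ a → ∀ t : Tpl, IsT t → t.1 = q → (p : ℤ) ^ a ∣ dis t →
        ∃ x ∈ L, InC 1 (p ^ a) x t) := by
    intro p a q
    by_cases h : p.Prime ∧ 1 ≤ a ∧ 1 ≤ q.1 ∧ 1 ≤ q.2 ∧ Nat.Coprime q.1 q.2
    · obtain ⟨L, h1, h2⟩ := hB p a q.1 q.2 h.1 h.2.1 h.2.2.1 h.2.2.2.1 h.2.2.2.2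
      exact ⟨L, h1, fun _ _ t ht hq hd => h2 t ht hq hd⟩
    · refine ⟨∅, Nat.zero_le _, fun hp ha t ht hq _ => absurd ?_ h⟩
      rw [← hq]
      exact ⟨hp, ha, ht.n1, ht.k1, ht.co⟩
  choose LA LA' h1 h2 h3 using hA'
  choose LB g1 g2 using hB'
  exact ⟨LA, LA', LB, ⟨h1, h2, g1, fun p hp hp2 t ht hnd hd => h3 p t.1 hp hp2 t ht rfl hnd hd,
    fun p a hp ha t ht hd => g2 p a t.1 hp ha t ht rfl hd⟩⟩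

end Pool.Agent.T6
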