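import Pool.Agent.helper8.T6.SpecC1
import Pool.Agent.helper11.T5.TR
import Pool.Agent.helper11.T5.SWP

/-!
# Row `t6:TPI`: the discriminant of a tuple is given by `Pk`
-/

set_option autoImplicit false

namespace Pool.Agent.T6

open Finset Pool.Agent.T5

theorem TPI_aux (n k m g Z L R D : ℤ) (hk : k ≠ 0) (e1 : L * n ^ 2 = m * g + Z * k ^ 2)
    (e2 : k * R = Z * n ^ 2 - m ^ 2)
    (e5 : D * (n * k) ^ 2 = (Z * g - L * m) ^ 2 - 4 * Z ^ 2 * L * k ^ 2)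
    (e7 : n ^ 2 * (Z * g - L * m) = k * (g * R - m * k * Z)) : n ^ 10 * D = Pk n k m g R := by
  have hz : m ^ 2 + k * R = Z * n ^ 2 := by linear_combination e2
  have hP : Pk n k m g R = n ^ 4 * (g * R - m * k * Z) ^ 2 - 4 * Z ^ 2 * L * n ^ 8 := by
    unfold Pk
    rw [hz]
    linear_combination (4 * Z ^ 2 * n ^ 6) * e1
  rw [hP]
  refine mul_left_cancel₀ (pow_ne_zero 2 hk) ?_
  linear_combination n ^ 8 * e5 + n ^ 4 * (n ^ 2 * (Z * g - L * m) + k * (g * R - m * k * Z)) * e7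

theorem TPI : TPI_stmt := by
  have key : ∀ t : Tpl, IsT t → (t.1.1 : ℤ) ^ 10 * dis t = Pk t.1.1 t.1.2 t.2.1 t.2.2.1 (RR t) := by
    intro t ht
    obtain ⟨e1, e2, -, -, e5, -, e7, -, -, -⟩ := TR t ht
    have hk0 : (t.1.2 : ℤ) ≠ 0 := by
      have := ht.k1
      exact_mod_cast (by omega : t.1.2 ≠ 0)
    exact TPI_aux _ _ _ _ _ _ _ _ hk0 e1 e2 e5 e7
  intro t ht
  obtain ⟨s1, -, s3, s4⟩ := (SWP TR).1 t ht
  have h := key (swp t) s1
  rw [s3, s4] at h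
  exact ⟨key t ht, h⟩

end Pool.Agent.T6
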